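import Pool.Agent.Q172.DetK.Pair

/-!
# If the correlations of the zeros of zeta are determinantal, then they are those of the sine kernel

Assume the Riemann hypothesis.  Let `K : ℝ → ℂ` be continuous with `K 0 = 1` and
`K (-x) = conj (K x)`, and suppose that for every `k ≥ 2` the `k`-level correlations of the zeros
(along `T → ∞`, or along any filter finer than `atTop`, for instance a sequence of heights) have
the density `det [K (u_i - u_j)]`.  Then `K x = exp (i θ x) sin (π x) / (π x)` for some real `θ`; this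
factor does not change the determinants, and the `k`-level conjecture holds (along the same filter)
for all `k`.  So the conjecture for all `k` is equivalent to the existence of such a kernel.

For pairs the following is enough: if the pair correlation has a density `1 - g` with `g` continuous
and positive definite, then `g x = (sin (π x) / (π x)) ^ 2` and the pair correlation conjecture holds.

Idea of the proof.  Counts are nonnegative, so all the determinants are nonnegative; by interlacing
`K` is positive definite, and by the Schur product theorem `g = |K|^2` is positive definite.  The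
density `1 - g` is nonnegative, so `g 0 ≤ 1`.  Montgomery's theorem determines the spectral measure
of `g` in `(-1, 1)`: it is `(1 - |α|) dα` there.  This has already total mass one, and the total
mass is `g 0 ≤ 1`; so nothing is left for the rest of the line, and `g` is the square of the sine
kernel.  Hence `K` vanishes at the nonzero integers, its translates by the integers are orthonormal
in the Hilbert space of the positive definite function `K`, and Bessel's inequality is an equality;
so `K` is given by the sampling formula, and `|K| = |sin (π x) / (π x)|` determines the phase of `K`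
up to a character of the line.
-/

open Filter Topology MeasureTheory
open scoped ComplexConjugate

namespace Pool.Agent.Results.MP_67227b_nt.DeterminantalImpliesSine

/-- the nontrivial zeros of `ζ` with ordinate in `(0, T]`, every zero being listed with as many
labels `0, 1, …` as its multiplicity -/
def Z (T : ℝ) : Set (ℂ × ℕ) :=
  {p | riemannZeta p.1 = 0 ∧ 0 < p.1.re ∧ p.1.re < 1 ∧ 0 < p.1.im ∧ p.1.im ≤ T ∧
    p.2 < analyticOrderNatAt riemannZeta p.1}

/-- `N_k(T; B)` with `k = r + 1` and `B = ∏ [a_i, b_i]`: the number of `k`-tuples of pairwise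
distinct (labelled) zeros with ordinates at most `T` whose normalised differences with the last
ordinate lie in the box `B` -/
noncomputable def Nk (r : ℕ) (T : ℝ) (a b : Fin r → ℝ) : ℕ :=
  {t : Fin (r + 1) → ℂ × ℕ | Function.Injective t ∧ (∀ i, t i ∈ Z T) ∧
    ∀ i : Fin r, ((t i.castSucc).1.im - (t (Fin.last r)).1.im) * Real.log T / (2 * Real.pi) ∈
      Set.Icc (a i) (b i)}.ncard

/-- `(T / 2π) log T` -/
noncomputable def X (T : ℝ) : ℝ := T * Real.log T / (2 * Real.pi)

/-- the matrix with the entries `sin π(u_i - u_j) / π(u_i - u_j)`, and `1` if `u_i = u_j` -/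
noncomputable def A {n : ℕ} (u : Fin n → ℝ) : Matrix (Fin n) (Fin n) ℝ :=
  Matrix.of fun i j => Real.sinc (Real.pi * (u i - u j))

/-- the assertion of the conjecture for `k = r + 1`, with the limit `T → ∞` taken along `l` -/
def Conj (l : Filter ℝ) (r : ℕ) : Prop := ∀ a b : Fin r → ℝ, (∀ i, a i < b i) →
  Tendsto (fun T => (Nk r T a b : ℝ) / X T) l
    (𝓝 (∫ u in Set.Icc a b, (A (Fin.snoc u 0 : Fin (r + 1) → ℝ)).det))

/-- the (real) determinant `det [K (u_i - u_j)]` -/
noncomputable def detK (K : ℝ → ℂ) {n : ℕ} (u : Fin n → ℝ) : ℝ :=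
  (Matrix.det (Matrix.of fun i j => K (u i - u j))).re

/-- the `k`-level correlations, `k = r + 1`, have the density `det [K (u_i - u_j)]` along `l` -/
def HasKernel (l : Filter ℝ) (K : ℝ → ℂ) (r : ℕ) : Prop := ∀ a b : Fin r → ℝ, (∀ i, a i < b i) →
  Tendsto (fun T => (Nk r T a b : ℝ) / X T) l
    (𝓝 (∫ u in Set.Icc a b, detK K (Fin.snoc u 0 : Fin (r + 1) → ℝ)))

/-- continuous Hermitian translation invariant kernels `K (x - y)` with density one -/
structure IsKernel (K : ℝ → ℂ) : Prop where
  continuous : Continuous K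
  zero : K 0 = 1
  neg : ∀ x, K (-x) = conj (K x)

/-- even positive definite functions -/
def PosDef (g : ℝ → ℝ) : Prop :=
  (∀ x, g (-x) = g x) ∧ ∀ (s : Finset ℝ) (w : ℝ → ℝ), 0 ≤ ∑ x ∈ s, ∑ y ∈ s, w x * w y * g (x - y)

theorem conj_of_modulated {l : Filter ℝ} {K : ℝ → ℂ} {θ : ℝ}
    (h : ∀ x, K x = Complex.exp ((θ * x : ℝ) * Complex.I) * (Real.sinc (Real.pi * x) : ℂ)) {r : ℕ}
    (hr : HasKernel l K r) : Conj l r := by
  intro a b hab
  have h1 := hr a b hab
  have h2 : ∀ u : Fin r → ℝ, detK K (Fin.snoc u 0 : Fin (r + 1) → ℝ) =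
      (A (Fin.snoc u 0 : Fin (r + 1) → ℝ)).det := fun u => Q172.DetK.D_gauge h _
  simp_rw [h2] at h1
  exact h1

theorem sine_kernel : IsKernel fun x => ((Real.sinc (Real.pi * x) : ℝ) : ℂ) where
  continuous := by
    have := Real.continuous_sinc
    fun_prop
  zero := by simp
  neg := fun x => by rw [mul_neg, Real.sinc_neg, Complex.conj_ofReal]

theorem hasKernel_of_conj {l : Filter ℝ} {r : ℕ} (h : Conj l r) :
    HasKernel l (fun x => ((Real.sinc (Real.pi * x) : ℝ) : ℂ)) r := by
  intro a b hab
  have h1 := h a b hab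
  have h2 : ∀ u : Fin r → ℝ, detK (fun x => ((Real.sinc (Real.pi * x) : ℝ) : ℂ))
      (Fin.snoc u 0 : Fin (r + 1) → ℝ) = (A (Fin.snoc u 0 : Fin (r + 1) → ℝ)).det := fun u =>
    Q172.DetK.D_gauge (K := fun x => ((Real.sinc (Real.pi * x) : ℝ) : ℂ)) (θ := 0)
      (fun x => by
        rw [zero_mul, Complex.ofReal_zero, zero_mul, Complex.exp_zero, one_mul]
        rfl) _
  simp_rw [h2]
  exact h1

/-- **Determinantal implies sine kernel**, under the Riemann hypothesis. -/
theorem result (RH : RiemannHypothesis) :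
    -- determinantal correlations along a filter
    (∀ l : Filter ℝ, l.NeBot → l ≤ atTop → ∀ K : ℝ → ℂ, IsKernel K →
      (∀ r : ℕ, 1 ≤ r → HasKernel l K r) →
      (∃ θ : ℝ, ∀ x : ℝ, K x =
        Complex.exp ((θ * x : ℝ) * Complex.I) * (Real.sinc (Real.pi * x) : ℂ)) ∧
      ∀ r : ℕ, 1 ≤ r → Conj l r) ∧
    -- the conjecture for all `k` is equivalent to the existence of a kernel
    ((∀ r : ℕ, 1 ≤ r → Conj atTop r) ↔
      ∃ K : ℝ → ℂ, IsKernel K ∧ ∀ r : ℕ, 1 ≤ r → HasKernel atTop K r) ∧
    -- pairs
    (∀ l : Filter ℝ, l.NeBot → l ≤ atTop → ∀ g : ℝ → ℝ, Continuous g → PosDef g →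
      (∀ a b : Fin 1 → ℝ, a 0 < b 0 → Tendsto (fun T => (Nk 1 T a b : ℝ) / X T) l
        (𝓝 (∫ y in (a 0)..(b 0), (1 - g y)))) →
      (∀ x : ℝ, g x = Real.sinc (Real.pi * x) ^ 2) ∧ Conj l 1) := by
  have main : ∀ l : Filter ℝ, l.NeBot → l ≤ atTop → ∀ K : ℝ → ℂ, IsKernel K →
      (∀ r : ℕ, 1 ≤ r → HasKernel l K r) →
      (∃ θ : ℝ, ∀ x : ℝ, K x =
        Complex.exp ((θ * x : ℝ) * Complex.I) * (Real.sinc (Real.pi * x) : ℂ)) ∧
      ∀ r : ℕ, 1 ≤ r → Conj l r := by
    intro l hne hl K hK h
    obtain ⟨θ, hθ⟩ := Q172.DetK.det_rigid RH hl hK.continuous hK.zero hK.neg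
      fun r hr a b hab => h r hr a b hab
    exact ⟨⟨θ, hθ⟩, fun r hr => conj_of_modulated hθ (h r hr)⟩
  refine ⟨main, ⟨fun h => ⟨_, sine_kernel, fun r hr => hasKernel_of_conj (h r hr)⟩, ?_⟩, ?_⟩
  · rintro ⟨K, hK, h⟩
    exact (main atTop inferInstance le_rfl K hK h).2
  · intro l hne hl g hg hp h
    have h1 := Q172.DetK.pair_rigid RH hl hg hp.1 hp.2 fun a b hab => h a b (hab 0)
    refine ⟨h1, fun a b hab => ?_⟩
    have h2 := h a b (hab 0)
    rw [Q172.DetK.box_one a b (hab 0)]
    have h3 : ∀ y : ℝ, (A (Fin.snoc (fun _ : Fin 1 => y) 0 : Fin (1 + 1) → ℝ)).det =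
        1 - g y := by
      intro y
      have e : (Fin.snoc (fun _ : Fin 1 => y) 0 : Fin 2 → ℝ) = ![y, 0] := by
        funext i
        fin_cases i
        · rfl
        · rfl
      show (A (Fin.snoc (fun _ : Fin 1 => y) 0 : Fin 2 → ℝ)).det = _
      have h4 : g y = Real.sinc (Real.pi * y) ^ 2 := h1 y
      rw [e, Matrix.det_fin_two, h4]
      simp only [A, Matrix.of_apply, Matrix.cons_val_zero, Matrix.cons_val_one, sub_self, mul_zero,
        Real.sinc_zero, sub_zero, zero_sub, mul_neg, Real.sinc_neg, mul_one]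
      ring
    simp_rw [h3]
    exact h2

end Pool.Agent.Results.MP_67227b_nt.DeterminantalImpliesSine
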