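import Pool.Agent.Q278.KA.K

/-!
# The Kac-Akhiezer formula for the zeros of zeta at mesoscopic scales, under RH

Let `L = L(T)` tend to infinity with `L = o(log T)`, and for a smooth complex valued function `f` of
compact support and `T ≤ t ≤ 2T` let

  `stat f L T t = ∑_γ f((γ - t) log T / (2πL)) - L ∫ f`,

the sum over all nontrivial zeros of zeta with multiplicity.  For the sine process (all correlation
functions `det A`) the Kac-Akhiezer formula (the strong Szego limit theorem on the line) says that the
mean of `exp(∑ f(x/L) - L ∫ f)` tends to `exp(1/2 ∫ |ξ| 𝓕 f(ξ) 𝓕 f(-ξ) dξ)` as `L → ∞`.  This mean is a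
Fredholm determinant; it involves the correlation functions of all orders at once.

We prove, assuming RH (the standing assumption of the problem), that the zeros of zeta satisfy this
formula at every scale with `1 << L << log T`, for all test functions.  More generally the means of
all continuous functions of exponential growth of finitely many real linear statistics converge to
the Gaussian ones.

Proof.  By our earlier theorems the statistics converge in law, with all moments.  Here we bound their
exponential moments.  Under RH the statistic is a sum over primes up to `exp(W log T / L)`, with error at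
most `W^(-4)` times a smooth count of zeros, for EVERY `W` up to `L`.  The measure of the set of `t`
with `|stat f| > V` is shown to be at most `2T exp(-2V)` for all `V ≥ V0`, by moments of order depending
on `V`: for `V ≤ c L` one takes `W = L / (16 V)` and the moment of order `2V`; for `V` of order `L` or more
one uses only the smooth count, at a larger scale `L' = V / C` and at last at the scale `c log T`.
-/

set_option autoImplicit false

open Filter Topology MeasureTheory ProbabilityTheory Complex
open scoped FourierTransform ContDiff ComplexConjugate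

namespace Pool.Agent.Results.MP_67227b_nt.ExponentialMoments

/-- multiplicity of `s` as a zero of the Riemann zeta function (order of vanishing at `s`) -/
noncomputable def zmult (s : ℂ) : ℕ := analyticOrderNatAt riemannZeta s

/-- the nontrivial zeros of `ζ` -/
def ZZ : Set ℂ := {s : ℂ | riemannZeta s = 0 ∧ 0 < s.re ∧ s.re < 1}

/-- the centred linear statistic at scale `L` -/
noncomputable def stat (f : ℝ → ℂ) (L T t : ℝ) : ℂ :=
  ∑ᶠ s ∈ ZZ, (zmult s : ℂ) * f ((s.im - t) * Real.log T / (2 * Real.pi * L)) - L * ∫ x, f x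

/-- the limiting covariance -/
noncomputable def cov (f g : ℝ → ℝ) : ℝ :=
  ∫ ξ : ℝ, |ξ| * (𝓕 (fun x => (f x : ℂ)) ξ * conj (𝓕 (fun x => (g x : ℂ)) ξ)).re

/-- the centred linear statistic of a real test function -/
noncomputable def statR (f : ℝ → ℝ) (L T t : ℝ) : ℝ :=
  ∑ᶠ s ∈ ZZ, (zmult s : ℝ) * f ((s.im - t) * Real.log T / (2 * Real.pi * L)) - L * ∫ x, f x

lemma stat_eq (f : ℝ → ℂ) (L T t : ℝ) : stat f L T t = Q278.KA.stC f L T t := by
  unfold stat Q278.KA.stC Q278.KA.SC Q278.MC.aP zmult ZZ
  have e : ∀ s : ℂ, (s.im - t) * Real.log T / (2 * Real.pi * L) =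
      Real.log T / (2 * Real.pi * L) * (s.im - t) := fun s => by ring
  simp only [e]

lemma statR_eq (f : ℝ → ℝ) (L T t : ℝ) : statR f L T t = Q278.MC.st f L T t := by
  unfold statR Q278.MC.st Q278.MC.SZ Q278.MC.aP zmult ZZ
  have e : ∀ s : ℂ, (s.im - t) * Real.log T / (2 * Real.pi * L) =
      Real.log T / (2 * Real.pi * L) * (s.im - t) := fun s => by ring
  simp only [e]

lemma test_CC {f : ℝ → ℝ} (h1 : ContDiff ℝ ∞ f) (h2 : HasCompactSupport f) :
    Q278.MC.CC (Q278.MC.fc f) := by
  constructor
  · exact Complex.ofRealCLM.contDiff.comp h1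
  · exact h2.comp_left (g := fun x : ℝ => (x : ℂ)) Complex.ofReal_zero

/-- **The Kac-Akhiezer formula for the zeros of zeta at mesoscopic scales.** -/
theorem result (RH : RiemannHypothesis) (L : ℝ → ℝ) (hL : Tendsto L atTop atTop)
    (hLT : Tendsto (fun T => L T / Real.log T) atTop (𝓝 0)) :
    (∀ f : ℝ → ℂ, ContDiff ℝ ∞ f → HasCompactSupport f →
      Tendsto (fun T : ℝ => (1 / T : ℂ) * ∫ t in T..(2 * T), cexp (stat f (L T) T t)) atTop
        (𝓝 (cexp (1 / 2 * ∫ ξ : ℝ, (|ξ| : ℝ) * (𝓕 f ξ * 𝓕 f (-ξ)))))) ∧
    ∀ (k : ℕ) (f : Fin k → ℝ → ℝ), (∀ j, ContDiff ℝ ∞ (f j) ∧ HasCompactSupport (f j)) →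
      (Matrix.of fun i j => cov (f i) (f j)).PosSemidef ∧
      ∀ φ : EuclideanSpace ℝ (Fin k) → ℝ, Continuous φ →
        (∃ A : ℝ, ∀ x, |φ x| ≤ A * Real.exp (A * ‖x‖)) →
        Tendsto (fun T : ℝ => (1 / T) * ∫ t in T..(2 * T),
          φ (WithLp.toLp 2 fun j => statR (f j) (L T) T t)) atTop
          (𝓝 (∫ x, φ x ∂(multivariateGaussian 0 (Matrix.of fun i j => cov (f i) (f j))))) := by
  refine ⟨fun f h1 h2 => ?_, fun k f hf => ?_⟩
  · refine tendsto_of_seq_tendsto fun T hT => ?_
    have h3 := Q278.KA.kac RH (Q278.MC.CC.mk h1 h2) hT (hL.comp hT) (hLT.comp hT)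
    refine h3.congr fun n => ?_
    simp only [Function.comp_apply, stat_eq]
    push_cast
    rfl
  · have hf' : ∀ j, Q278.MC.CC (Q278.MC.fc (f j)) := fun j => test_CC (hf j).1 (hf j).2
    refine ⟨Q278.MC.cm_pos hf', fun φ hφ hb => ?_⟩
    obtain ⟨A, hA⟩ := hb
    refine tendsto_of_seq_tendsto fun T hT => ?_
    have h3 := Q278.KA.joint_exp RH hf' hT (hL.comp hT) (hLT.comp hT) hφ hA
    refine h3.congr fun n => ?_
    simp only [Function.comp_apply, statR_eq]
    rfl

end Pool.Agent.Results.MP_67227b_nt.ExponentialMoments
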