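import Pool.Agent.Q278.KM.H

/-!
# All joint moments of the linear statistics of the zeros at mesoscopic scales, without hypothesis

Let `L = L(T)` tend to infinity with `L = o(log T)`, and for a smooth real function `f` of compact
support and `T ≤ t ≤ 2T` let

  `stat f L T t = ∑_ρ f((γ - t) log T / (2πL)) - L ∫ f`,

the sum over all nontrivial zeros of zeta with multiplicity, `γ = Im ρ`.  The mean over `t` of a product
of `k` such statistics is a combination of the `j`-level correlation sums of the zeros, `j ≤ k`, at
distances of order `L` mean gaps.  For the sine process (correlations `det A`) it converges, as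
`L → ∞`, to the corresponding mixed moment of the Gaussian vector with covariance
`cov f g = ∫ |ξ| Re(𝓕 f(ξ) conj 𝓕 g(ξ)) dξ`.

We prove this for the zeros of zeta, for every `k` and all test functions (no condition on the support
of their Fourier transforms), at every scale with `1 << L << log T`, assuming nothing.  More generally
the mean of `φ(stat f_1, ..., stat f_k)` converges to the Gaussian mean for every continuous `φ` of
polynomial growth.

Proof.  The convergence in law is our earlier theorem; here all moments are bounded.  By the explicit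
formula the statistic is a sum over primes up to `X` (`log X = o(log T)`, moments by the mean value
theorem), plus a sum over the zeros of weights that are small, but exponentially large in the distance
from the critical line.  Its moments are bounded by a density theorem near the line and by the moments
of the number of zeros in short intervals.
-/

set_option autoImplicit false

open Filter Topology MeasureTheory ProbabilityTheory
open scoped FourierTransform ContDiff ComplexConjugate

namespace Pool.Agent.Results.MP_67227b_nt.MomentsAtAllLevels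

/-- multiplicity of `s` as a zero of the Riemann zeta function (order of vanishing at `s`) -/
noncomputable def zmult (s : ℂ) : ℕ := analyticOrderNatAt riemannZeta s

/-- the nontrivial zeros of `ζ` -/
def ZZ : Set ℂ := {s : ℂ | riemannZeta s = 0 ∧ 0 < s.re ∧ s.re < 1}

/-- the centred linear statistic at scale `L` -/
noncomputable def stat (f : ℝ → ℝ) (L T t : ℝ) : ℝ :=
  ∑ᶠ s ∈ ZZ, (zmult s : ℝ) * f ((s.im - t) * Real.log T / (2 * Real.pi * L)) - L * ∫ x, f x

/-- the limiting covariance -/
noncomputable def cov (f g : ℝ → ℝ) : ℝ :=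
  ∫ ξ : ℝ, |ξ| * (𝓕 (fun x => (f x : ℂ)) ξ * conj (𝓕 (fun x => (g x : ℂ)) ξ)).re

lemma stat_eq (f : ℝ → ℝ) (L T t : ℝ) : stat f L T t = Q278.MC.st f L T t := by
  unfold stat Q278.MC.st Q278.MC.SZ Q278.MC.aP zmult ZZ
  have e : ∀ s : ℂ, (s.im - t) * Real.log T / (2 * Real.pi * L) =
      Real.log T / (2 * Real.pi * L) * (s.im - t) := fun s => by ring
  simp only [e]

lemma test_CC {f : ℝ → ℝ} (h1 : ContDiff ℝ ∞ f) (h2 : HasCompactSupport f) :
    Q278.MC.CC (Q278.MC.fc f) := by
  constructor
  · exact Complex.ofRealCLM.contDiff.comp h1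
  · exact h2.comp_left (g := fun x : ℝ => (x : ℂ)) Complex.ofReal_zero

/-- **All joint moments of the zeros of zeta at mesoscopic scales are Gaussian.** -/
theorem result (L : ℝ → ℝ) (hL : Tendsto L atTop atTop)
    (hLT : Tendsto (fun T => L T / Real.log T) atTop (𝓝 0))
    (k : ℕ) (f : Fin k → ℝ → ℝ) (hf : ∀ j, ContDiff ℝ ∞ (f j) ∧ HasCompactSupport (f j)) :
    (Matrix.of fun i j => cov (f i) (f j)).PosSemidef ∧
    Tendsto (fun T : ℝ => (1 / T) * ∫ t in T..(2 * T), ∏ j, stat (f j) (L T) T t) atTop
      (𝓝 (∫ x : EuclideanSpace ℝ (Fin k), ∏ j, x j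
        ∂(multivariateGaussian 0 (Matrix.of fun i j => cov (f i) (f j))))) ∧
    ∀ φ : EuclideanSpace ℝ (Fin k) → ℝ, Continuous φ →
      (∃ (A : ℝ) (N : ℕ), ∀ x, |φ x| ≤ A * (1 + ‖x‖) ^ N) →
      Tendsto (fun T : ℝ => (1 / T) * ∫ t in T..(2 * T),
        φ (WithLp.toLp 2 fun j => stat (f j) (L T) T t)) atTop
        (𝓝 (∫ x, φ x ∂(multivariateGaussian 0 (Matrix.of fun i j => cov (f i) (f j))))) := by
  have hf' : ∀ j, Q278.MC.CC (Q278.MC.fc (f j)) := fun j => test_CC (hf j).1 (hf j).2
  refine ⟨Q278.MC.cm_pos hf', ?_, fun φ hφ hb => ?_⟩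
  · refine tendsto_of_seq_tendsto fun T hT => ?_
    have h3 := Q278.KM.joint_mom hf' hT (hL.comp hT) (hLT.comp hT)
    refine h3.congr fun n => ?_
    simp only [Function.comp_apply, stat_eq]
  · obtain ⟨A, N, hA⟩ := hb
    refine tendsto_of_seq_tendsto fun T hT => ?_
    have h3 := Q278.KM.joint_poly hf' hT (hL.comp hT) (hLT.comp hT) hφ hA
    refine h3.congr fun n => ?_
    simp only [Function.comp_apply, stat_eq]
    rfl

end Pool.Agent.Results.MP_67227b_nt.MomentsAtAllLevels
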