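import Pool.Agent.Q241.SC.G4

/-!
# The k-level correlation conjecture is equivalent to either half of it, at every single level

No hypothesis is assumed.  `Nk r T a b` is `N_k(T; B)` with `k = r + 1` and `B = ∏ [a_i, b_i]`, for
the ordinates of the nontrivial zeros of `ζ`, listed with multiplicity (on the line or not).

(1) For every `k ≥ 2` the `k`-level conjecture is equivalent to its upper half, and to its lower
half, and to the lower bound `N_k(T; B) ≥ (∫_B ρ_k - o(1)) (T / 2π) log T` for the correlation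
density `ρ_k` of SOME mixture of stationary determinantal point processes of mean density one.
(2) In the last case almost all components of the mixture are sine processes.
(3) The `(k+1)`-level conjecture implies the `k`-level conjecture.
(4) So the conjecture for all `k` is equivalent to a one-sided bound of one of the three kinds at
infinitely many levels.
(5) The conjecture for a single `k` implies that almost all zeros are simple and critical.

Idea of the proof.  The main point is an unconditional form of screening.  By Selberg's theory the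
mean square of `S(t + h) - S(t)` over whole ranges is `O(log (h log T))`; local moments of all
orders of the number of zeros in short windows are bounded (an argument of Fujii and Selberg, here
in an elementary form by a majorant of the window), and the average of the number of zeros in
windows of suitable different lengths around a zero differs from its mean length by a small amount
in the mean, with every polynomial weight in the local number of zeros.  So the last coordinate of
the tuples of zeros can be integrated out up to an absolute error `o(1)`, and the same is true for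
the sine process.  Hence both halves descend, `k → k - 1`, and if the full statement is known at
the level `k - 1` then each half at the level `k` implies the full one: the error terms for the
parts of a long window have one sign, and their sum is `o(1)`.  For mixtures of determinantal
processes the descent shows `∫ c^k ≤ 1` for the densities `c` of the components, whose mean is one,
so that `c = 1` almost surely; then the theorem for pairs (MP_8958e8_nt.DeterminantalLowerBound)
says that almost all components are sine processes.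
-/

open Filter Topology MeasureTheory

namespace Pool.Agent.Results.MP_67227b_nt.OneLevelOneSide

/-- the nontrivial zeros of `ζ` with ordinate in `(0, T]`, every zero being listed with as many
labels `0, 1, …` as its multiplicity -/
def Z (T : ℝ) : Set (ℂ × ℕ) :=
  {p | riemannZeta p.1 = 0 ∧ 0 < p.1.re ∧ p.1.re < 1 ∧ 0 < p.1.im ∧ p.1.im ≤ T ∧
    p.2 < analyticOrderNatAt riemannZeta p.1}

/-- `N_k(T; B)` with `k = r + 1` and `B = ∏ [a_i, b_i]`: the number of `k`-tuples of pairwise
distinct (labelled) zeros with ordinates at most `T` whose normalised differences with the last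
ordinate lie in the box `B` -/
noncomputable def Nk (r : ℕ) (T : ℝ) (a b : Fin r → ℝ) : ℕ :=
  {t : Fin (r + 1) → ℂ × ℕ | Function.Injective t ∧ (∀ i, t i ∈ Z T) ∧
    ∀ i : Fin r, ((t i.castSucc).1.im - (t (Fin.last r)).1.im) * Real.log T / (2 * Real.pi) ∈
      Set.Icc (a i) (b i)}.ncard

/-- the matrix with the entries `sin π(u_i - u_j) / π(u_i - u_j)`, and `1` if `u_i = u_j` -/
noncomputable def A {n : ℕ} (u : Fin n → ℝ) : Matrix (Fin n) (Fin n) ℝ :=
  Matrix.of fun i j => Real.sinc (Real.pi * (u i - u j))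

/-- `∫_B det A(u_1, …, u_{k-1}, 0) du`, `k = r + 1` -/
noncomputable def I (r : ℕ) (a b : Fin r → ℝ) : ℝ :=
  ∫ u in Set.Icc a b, (A (Fin.snoc u 0 : Fin (r + 1) → ℝ)).det

/-- `(T / 2π) log T` -/
noncomputable def X (T : ℝ) : ℝ := T * Real.log T / (2 * Real.pi)

/-- the conjecture for `k = r + 1` -/
def Conj (r : ℕ) : Prop := ∀ a b : Fin r → ℝ, (∀ i, a i < b i) →
  Tendsto (fun T => (Nk r T a b : ℝ) / X T) atTop (𝓝 (I r a b))

/-- the upper half of the conjecture for `k = r + 1` -/
def Upper (r : ℕ) : Prop := ∀ a b : Fin r → ℝ, (∀ i, a i < b i) → ∀ ε : ℝ, 0 < ε →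
  ∀ᶠ T : ℝ in atTop, (Nk r T a b : ℝ) ≤ (I r a b + ε) * X T

/-- the lower half of the conjecture for `k = r + 1` -/
def Lower (r : ℕ) : Prop := ∀ a b : Fin r → ℝ, (∀ i, a i < b i) → ∀ ε : ℝ, 0 < ε →
  ∀ᶠ T : ℝ in atTop, (I r a b - ε) * X T ≤ (Nk r T a b : ℝ)

/-- `∫ φ(t) e^{2πiut} dt`: the stationary determinantal process with symbol `φ`, `0 ≤ φ ≤ 1`, has
the kernel `K φ (x - y)` -/
noncomputable def K (φ : ℝ → ℝ) (u : ℝ) : ℂ :=
  ∫ t : ℝ, (φ t : ℂ) * Complex.exp (2 * Real.pi * u * t * Complex.I)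

/-- the symbols `φ ω` of a mixture of stationary determinantal processes with mean density one,
whose correlation functions of order `k = r + 1` are finite -/
structure Mixture {Ω : Type*} [MeasurableSpace Ω] (r : ℕ) (μ : Measure Ω) (φ : Ω → ℝ → ℝ) :
    Prop where
  prob : IsProbabilityMeasure μ
  meas : Measurable (Function.uncurry φ)
  nonneg : ∀ ω t, 0 ≤ φ ω t
  le_one : ∀ ω t, φ ω t ≤ 1
  int : ∀ ω, Integrable (φ ω)
  mean : ∫ ω, ∫ t, φ ω t ∂volume ∂μ = 1
  pow : Integrable (fun ω => (∫ t, φ ω t) ^ (r + 1)) μ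

/-- the correlation function of order `n` of the mixture: the mean of `det (K (u_i - u_j))` -/
noncomputable def ρ {Ω : Type*} [MeasurableSpace Ω] (μ : Measure Ω) (φ : Ω → ℝ → ℝ) {n : ℕ}
    (u : Fin n → ℝ) : ℝ :=
  ∫ ω, ((Matrix.of fun i j => K (φ ω) (u i - u j)).det).re ∂μ

/-- `N_k(T; B)` is at least `(∫_B ρ_k(u_1, …, u_{k-1}, 0) du - o(1)) (T / 2π) log T` for all boxes -/
def LowerBy {Ω : Type*} [MeasurableSpace Ω] (r : ℕ) (μ : Measure Ω) (φ : Ω → ℝ → ℝ) : Prop :=
  ∀ a b : Fin r → ℝ, (∀ i, a i < b i) → ∀ ε : ℝ, 0 < ε → ∀ᶠ T : ℝ in atTop,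
    ((∫ u in Set.Icc a b, ρ μ φ (Fin.snoc u 0 : Fin (r + 1) → ℝ)) - ε) * X T ≤ (Nk r T a b : ℝ)

/-- there is such a lower bound -/
def LowerDet (r : ℕ) : Prop := ∃ (Ω : Type) (_ : MeasurableSpace Ω) (μ : Measure Ω)
  (φ : Ω → ℝ → ℝ), Mixture r μ φ ∧ LowerBy r μ φ

/-- the symbol is the indicator function of an interval of length one, so that the process is the
sine process: `|K φ (x - y)| = |sin π(x - y) / π(x - y)|` -/
def Sine (φ : ℝ → ℝ) : Prop :=
  ∃ a : ℝ, φ =ᵐ[volume] (Set.Ioo a (a + 1)).indicator fun _ => (1 : ℝ)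

/-- the number of nontrivial zeros with ordinate in `(0, T]` and property `P`, counted with
multiplicity -/
noncomputable def Num (P : ℂ → Prop) (T : ℝ) : ℕ :=
  ∑ᶠ s ∈ {s : ℂ | s ∈ {s : ℂ | riemannZeta s = 0 ∧ 0 < s.re ∧ s.re < 1} ∧ 0 < s.im ∧ s.im ≤ T ∧
    P s}, analyticOrderNatAt riemannZeta s

/-- almost all zeros are simple and on the critical line -/
def Good : Prop := Tendsto (fun T => (Num (fun s => s.re ≠ 1 / 2 ∨ deriv riemannZeta s = 0) T : ℝ) /
  Num (fun _ => True) T) atTop (𝓝 0)

lemma rho_eq {Ω : Type*} [MeasurableSpace Ω] (μ : Measure Ω) (φ : Ω → ℝ → ℝ) {n : ℕ}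
    (u : Fin n → ℝ) : ρ μ φ u = Q241.SC.RD μ φ 0 n u := by
  unfold ρ Q241.SC.RD
  refine integral_congr_ae (Eventually.of_forall fun ω => ?_)
  show ((Matrix.of fun i j => K (φ ω) (u i - u j)).det).re =
    (∫ t, φ ω t) ^ 0 * ((Q241.SC.DK (φ ω) u).det).re
  rw [pow_zero, one_mul]
  rfl

lemma low_iff {r : ℕ} {D : (Fin (r + 1) → ℝ) → ℝ} :
    (∀ a b : Fin r → ℝ, (∀ i, a i < b i) → ∀ ε : ℝ, 0 < ε → ∀ᶠ T : ℝ in atTop,
      ((∫ u in Set.Icc a b, D (Fin.snoc u 0 : Fin (r + 1) → ℝ)) - ε) * X T ≤ (Nk r T a b : ℝ)) ↔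
    Q241.SC.LowD Q241.KL.FZ D := by
  constructor
  · intro h a b hab ε hε
    filter_upwards [h a b hab ε hε, eventually_gt_atTop (1 : ℝ)] with T h1 hT
    have hX : 0 < X T := Pool.Agent.Y744.Xf_pos hT
    rw [Q241.KL.n_eq]
    exact (le_div_iff₀ hX).2 h1
  · intro h a b hab ε hε
    filter_upwards [h a b hab ε hε, eventually_gt_atTop (1 : ℝ)] with T h1 hT
    have hX : 0 < X T := Pool.Agent.Y744.Xf_pos hT
    rw [Q241.KL.n_eq] at h1
    exact (le_div_iff₀ hX).1 h1

lemma lower_iff {r : ℕ} : Lower r ↔ Q241.SC.Low Q241.KL.FZ Q241.KL.SI r :=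
  low_iff (D := fun p => (Q241.KL.SA p).det)

lemma lowerBy_iff {Ω : Type*} [MeasurableSpace Ω] {r : ℕ} {μ : Measure Ω} {φ : Ω → ℝ → ℝ} :
    LowerBy r μ φ ↔ Q241.SC.LowD Q241.KL.FZ (Q241.SC.RD μ φ 0 (r + 1)) := by
  rw [← low_iff]
  unfold LowerBy
  simp_rw [rho_eq]

lemma det_conj {Ω : Type*} [MeasurableSpace Ω] {r : ℕ} {μ : Measure Ω} {φ : Ω → ℝ → ℝ}
    (hr : 1 ≤ r) (h : Mixture r μ φ) (hl : LowerBy r μ φ) : Conj r ∧ ∀ᵐ ω ∂μ, Sine (φ ω) := by
  have := h.prob
  exact Q241.SC.conj_of_det hr ⟨h.meas, h.nonneg, h.le_one, h.int, h.mean, h.pow⟩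
    (lowerBy_iff.1 hl)

lemma conj_det {r : ℕ} (h : Conj r) : LowerDet r := by
  have hs := Q241.SC.sn_mixK r
  exact ⟨Unit, inferInstance, Measure.dirac (), Q241.DT.sn,
    ⟨inferInstance, hs.meas, hs.nonneg, hs.le_one, hs.int, hs.mean, hs.pow⟩,
    lowerBy_iff.2 (Q241.SC.det_of_conj h)⟩

/-- Without hypothesis, for every single level `k ≥ 2`: the `k`-level conjecture, its upper half,
its lower half and the lower bound by some mixture of stationary determinantal processes of mean
density one are equivalent (and then the mixture consists of sine processes); they imply the same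
at all lower levels, and that almost all zeros are simple and on the critical line; the conjecture
for all levels is equivalent to a one-sided bound of one of these kinds at infinitely many
levels. -/
theorem result :
    (∀ r : ℕ, 1 ≤ r → (Conj r ↔ Upper r) ∧ (Conj r ↔ Lower r) ∧ (Conj r ↔ LowerDet r)) ∧
    (∀ r : ℕ, 1 ≤ r → ∀ (Ω : Type) (_ : MeasurableSpace Ω) (μ : Measure Ω) (φ : Ω → ℝ → ℝ),
      Mixture r μ φ → LowerBy r μ φ → ∀ᵐ ω ∂μ, Sine (φ ω)) ∧
    (∀ r : ℕ, 1 ≤ r → Conj (r + 1) → Conj r) ∧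
    ((∀ r : ℕ, 1 ≤ r → Conj r) ↔ ∀ r₀ : ℕ, ∃ r : ℕ, r₀ ≤ r ∧ (Upper r ∨ Lower r ∨ LowerDet r)) ∧
    (∀ r : ℕ, 1 ≤ r → Conj r → Good) := by
  have hlow : ∀ r : ℕ, Lower r → Conj r := fun r h => Q241.SC.conj_of_low (lower_iff.1 h)
  have hdet : ∀ r : ℕ, 1 ≤ r → LowerDet r → Conj r := fun r hr h => by
    obtain ⟨Ω, _, μ, φ, h1, h2⟩ := h
    exact (det_conj hr h1 h2).1
  refine ⟨fun r hr => ⟨⟨Q241.KL.conj_upper, Q241.KL.upper_conj⟩, ⟨fun h => ?_, hlow r⟩,
    ⟨conj_det, hdet r hr⟩⟩, fun r hr Ω _ μ φ h1 h2 => (det_conj hr h1 h2).2,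
    fun r hr h => Q241.KL.conj_desc hr h, ⟨fun h r₀ => ?_, fun h r hr => ?_⟩,
    fun r hr h => Q241.KL.good_of_conj hr h⟩
  · rw [lower_iff]
    intro a b hab ε hε
    filter_upwards [(tendsto_order.1 ((Q241.KL.Conj_iff r).1 h a b hab)).1
      (Q241.KL.SI r a b - ε) (by linarith)] with T hT
    exact hT.le
  · exact ⟨max r₀ 1, le_max_left _ _, Or.inl (Q241.KL.conj_upper (h _ (le_max_right _ _)))⟩
  · obtain ⟨r', h1, h2⟩ := h r
    refine Q241.KL.conj_le hr h1 ?_
    rcases h2 with h2 | h2 | h2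
    · exact Q241.KL.upper_conj h2
    · exact hlow r' h2
    · exact hdet r' (hr.trans h1) h2

end Pool.Agent.Results.MP_67227b_nt.OneLevelOneSide
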